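import Pool.Agent.MdimSq.Main
import Pool.Agent.MdimSq.Small54
import Pool.Agent.MdimSq.LowerR
import Pool.Agent.MdimSq.UpperRO

/-!
The multiset dimension of the strong product of two paths whose sizes `m ≤ n` satisfy
`2 n ≤ 3 m - 2`. This contains all square grids.
-/

namespace Pool.Agent.Results.MP_732f2a_co.NearSquare

open Pool.Agent.MdimSq

/-- For all `3 ≤ m ≤ n` with `2 n + 2 ≤ 3 m`, the multiset dimension of the strong product of the
paths on `n` and `m` vertices: infinite for `(3, 3)`, six for `(4, 4)`, five for `(5, 4)`, and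
four whenever `m ≥ 5`. -/
theorem result (n m : ℕ) (hm : 3 ≤ m) (hmn : m ≤ n) (h : 2 * n + 2 ≤ 3 * m) :
    mdim (strongProd (SimpleGraph.pathGraph n) (SimpleGraph.pathGraph m)) =
      if m = 3 then ⊤ else if m = 4 then (if n = 4 then 6 else 5) else 4 := by
  by_cases h3 : m = 3
  · rw [if_pos h3]
    obtain rfl : m = 3 := h3
    obtain rfl : n = 3 := by omega
    exact mdim_top _ none3
  rw [if_neg h3]
  by_cases h4 : m = 4
  · rw [if_pos h4]
    subst h4
    by_cases hn4 : n = 4
    · rw [if_pos hn4]
      subst hn4
      apply le_antisymm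
      · obtain ⟨W, hW, hc⟩ := exists_six4
        exact mdim_le _ 6 W hW hc
      · exact mdim_ge _ 6 six_le4
    · rw [if_neg hn4]
      obtain rfl : n = 5 := by omega
      apply le_antisymm
      · obtain ⟨W, hW, hc⟩ := exists_five54
        exact mdim_le _ 5 W hW hc
      · exact mdim_ge _ 5 five_le54
  rw [if_neg h4]
  by_cases heq : n = m
  · subst heq
    exact mdim_big n (by omega)
  · apply le_antisymm
    · rcases Nat.even_or_odd' (m - 1) with ⟨k, hk | hk⟩
      · obtain ⟨W, hW, hc⟩ := even_setR (n := n) (m := m) k (by omega) (by omega) (by omega)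
          (by omega)
        exact mdim_le _ 4 W hW hc
      · obtain ⟨W, hW, hc⟩ := odd_setR (n := n) (m := m) k (by omega) (by omega) (by omega)
          (by omega)
        exact mdim_le _ 4 W hW hc
    · exact mdim_ge _ 4 (fun W hW => four_leR (by omega) (by omega) W hW)

end Pool.Agent.Results.MP_732f2a_co.NearSquare
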