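import Pool.Agent.MdimSq.Main
import Pool.Agent.MdimSq.Small

/-!
The multiset dimension of the strong product of a path with itself, for all sizes.
-/

namespace Pool.Agent.Results.MP_732f2a_co.Squares

open Pool.Agent.MdimSq

/-- For every `n ≥ 3`, the multiset dimension of the strong product of two paths on `n` vertices:
infinite for `n = 3`, six for `n = 4`, and four for every `n ≥ 5`. -/
theorem result (n : ℕ) (hn : 3 ≤ n) :
    mdim (strongProd (SimpleGraph.pathGraph n) (SimpleGraph.pathGraph n)) =
      if n = 3 then ⊤ else if n = 4 then 6 else 4 := by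
  by_cases h3 : n = 3
  · subst h3
    rw [if_pos rfl]
    exact mdim_top _ none3
  · rw [if_neg h3]
    by_cases h4 : n = 4
    · subst h4
      rw [if_pos rfl]
      apply le_antisymm
      · obtain ⟨W, hW, hc⟩ := exists_six4
        exact mdim_le _ 6 W hW hc
      · exact mdim_ge _ 6 six_le4
    · rw [if_neg h4]
      exact mdim_big n (by omega)

end Pool.Agent.Results.MP_732f2a_co.Squares
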